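import Pool.Agent.H974R3.RankFin

/-!
# Embedding a graph while keeping all cells large

The embedding lemma of `H974R3.RankEmb`, with additional sets `D i`, from which no vertex is chosen
but which have to stay large when they are cut down to the vertices with prescribed adjacencies to
the vertices of the copy.
-/

set_option autoImplicit false
set_option linter.unusedSectionVars false

namespace Pool.Agent.H61CI

open Finset Pool.Agent.H974R3.RC

variable {V : Type} [Fintype V] [DecidableEq V] (G : SimpleGraph V) [DecidableRel G.Adj]

open Classical in
/-- an induced copy of `H` with large cells, or a large very sparse / very dense pair -/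
lemma embedD (R s : ℕ) (hR : 1 ≤ R) (hs : 4 * R ≤ s) {ι : Type} [Fintype ι] (S : Finset V) :
    ∀ (k : ℕ) (H : SimpleGraph (Fin k)) (P : ι → Fin k → Prop)
    (C : Fin k → Finset V) (D : ι → Finset V), (∀ j, C j ⊆ S) → (∀ i, D i ⊆ S) →
    (∀ j, s * (k + Fintype.card ι) * (4 * R) ^ k ≤ (C j).card) →
    (∀ i, s * (k + Fintype.card ι) * (4 * R) ^ k ≤ (D i).card) →
    (∃ f : Fin k → V, Function.Injective f ∧ (∀ j, f j ∈ C j) ∧
      (∀ i j, i ≠ j → (G.Adj (f i) (f j) ↔ H.Adj i j)) ∧
      ∀ i, s ≤ ((D i).filter (fun v => ∀ j, G.Adj (f j) v ↔ P i j)).card) ∨
    (∃ X Y : Finset V, s ≤ X.card ∧ s ≤ Y.card ∧ X ⊆ S ∧ Y ⊆ S ∧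
      ((∀ x ∈ X, (Y.filter (fun y => G.Adj x y)).card * (2 * R) ≤ Y.card) ∨
       (∀ x ∈ X, (Y.filter (fun y => ¬ G.Adj x y)).card * (2 * R) ≤ Y.card))) := by
  intro k
  induction k with
  | zero =>
    intro H P C D _ hDS _ hD
    left
    refine ⟨fun j => j.elim0, fun j => j.elim0, fun j => j.elim0, fun j => j.elim0, fun i => ?_⟩
    have h1 := hD i
    have h2 : 0 < Fintype.card ι := Fintype.card_pos_iff.mpr ⟨i⟩
    have h3 : (D i).filter (fun v => ∀ j : Fin 0, G.Adj (Fin.elim0 j : V) v ↔ P i j) = D i :=
      Finset.filter_true_of_mem fun v _ j => j.elim0
    rw [h3]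
    refine le_trans ?_ h1
    calc s = s * 1 * 1 := by ring
      _ ≤ s * (0 + Fintype.card ι) * (4 * R) ^ 0 := by
        rw [pow_zero]
        exact Nat.mul_le_mul_right _ (Nat.mul_le_mul_left _ (by omega))
  | succ k ih =>
    intro H P C D hCS hDS hC hD
    set C' : V → Fin k → Finset V := fun v j =>
      if H.Adj 0 j.succ then (C j.succ).filter (fun u => G.Adj v u)
      else (C j.succ).filter (fun u => ¬ G.Adj v u ∧ u ≠ v) with hC'
    set D' : V → ι → Finset V := fun v i =>
      if P i 0 then (D i).filter (fun u => G.Adj v u)
      else (D i).filter (fun u => ¬ G.Adj v u) with hD'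
    have hsub : ∀ v j, C' v j ⊆ C j.succ := by
      intro v j
      simp only [hC']
      split_ifs
      · exact Finset.filter_subset _ _
      · exact Finset.filter_subset _ _
    have hsubD : ∀ v i, D' v i ⊆ D i := by
      intro v i
      simp only [hD']
      split_ifs
      · exact Finset.filter_subset _ _
      · exact Finset.filter_subset _ _
    have hRp : 0 < 4 * R := by omega
    by_cases hgood : ∃ v ∈ C 0, (∀ j, (C j.succ).card ≤ (C' v j).card * (4 * R)) ∧
        ∀ i, (D i).card ≤ (D' v i).card * (4 * R)
    · obtain ⟨v, hv, hg, hgD⟩ := hgood
      have hgen : ∀ a b : ℕ, s * (k + 1 + Fintype.card ι) * (4 * R) ^ (k + 1) ≤ a →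
          a ≤ b * (4 * R) → s * (k + Fintype.card ι) * (4 * R) ^ k ≤ b := by
        intro a b h1 h2
        have h3 : s * (k + 1 + Fintype.card ι) * (4 * R) ^ k * (4 * R) ≤ b * (4 * R) := by
          calc s * (k + 1 + Fintype.card ι) * (4 * R) ^ k * (4 * R) =
              s * (k + 1 + Fintype.card ι) * (4 * R) ^ (k + 1) := by
                rw [pow_succ]; ring
            _ ≤ _ := le_trans h1 h2
        have h4 := Nat.le_of_mul_le_mul_right h3 hRp
        refine le_trans ?_ h4
        apply Nat.mul_le_mul_right
        apply Nat.mul_le_mul_left
        omega
      have hsize : ∀ j, s * (k + Fintype.card ι) * (4 * R) ^ k ≤ (C' v j).card :=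
        fun j => hgen _ _ (hC j.succ) (hg j)
      have hsizeD : ∀ i, s * (k + Fintype.card ι) * (4 * R) ^ k ≤ (D' v i).card :=
        fun i => hgen _ _ (hD i) (hgD i)
      rcases ih (H.comap Fin.succ) (fun i j => P i j.succ) (C' v) (D' v)
        (fun j => (hsub v j).trans (hCS _)) (fun i => (hsubD v i).trans (hDS i))
        hsize hsizeD with ⟨f, hinj, hf, hadj, hcell⟩ | h
      · left
        have hfv : ∀ j, f j ≠ v := by
          intro j hj
          have h1 := hf j
          rw [hj] at h1
          simp only [hC'] at h1
          split_ifs at h1
          · rw [Finset.mem_filter] at h1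
            exact G.loopless.irrefl v h1.2
          · rw [Finset.mem_filter] at h1
            exact h1.2.2 rfl
        have hva : ∀ j, G.Adj v (f j) ↔ H.Adj 0 j.succ := by
          intro j
          have h1 := hf j
          simp only [hC'] at h1
          split_ifs at h1 with hH
          · rw [Finset.mem_filter] at h1
            exact ⟨fun _ => hH, fun _ => h1.2⟩
          · rw [Finset.mem_filter] at h1
            exact ⟨fun h => absurd h h1.2.1, fun h => absurd h hH⟩
        refine ⟨Fin.cons v f, ?_, ?_, ?_, ?_⟩
        · intro i j hij
          induction i using Fin.cases with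
          | zero =>
            induction j using Fin.cases with
            | zero => rfl
            | succ j => simp only [Fin.cons_zero, Fin.cons_succ] at hij; exact absurd hij.symm (hfv j)
          | succ i =>
            induction j using Fin.cases with
            | zero => simp only [Fin.cons_zero, Fin.cons_succ] at hij; exact absurd hij (hfv i)
            | succ j => simp only [Fin.cons_succ] at hij; rw [hinj hij]
        · intro j
          induction j using Fin.cases with
          | zero => simpa using hv
          | succ j => simp only [Fin.cons_succ]; exact hsub v j (hf j)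
        · intro i j hij
          induction i using Fin.cases with
          | zero =>
            induction j using Fin.cases with
            | zero => exact absurd rfl hij
            | succ j => simp only [Fin.cons_zero, Fin.cons_succ]; exact hva j
          | succ i =>
            induction j using Fin.cases with
            | zero =>
              simp only [Fin.cons_zero, Fin.cons_succ]
              rw [G.adj_comm, H.adj_comm]; exact hva i
            | succ j =>
              simp only [Fin.cons_succ]
              have := hadj i j (fun h => hij (by rw [h]))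
              rw [this, SimpleGraph.comap_adj]
        · intro i
          refine le_trans (hcell i) (Finset.card_le_card ?_)
          intro u hu
          rw [Finset.mem_filter] at hu ⊢
          have h1 : u ∈ D i ∧ (G.Adj v u ↔ P i 0) := by
            have h2 := hu.1
            simp only [hD'] at h2
            split_ifs at h2 with h3
            · rw [Finset.mem_filter] at h2
              exact ⟨h2.1, fun _ => h3, fun _ => h2.2⟩
            · rw [Finset.mem_filter] at h2
              exact ⟨h2.1, fun h => absurd h h2.2, fun h => absurd h h3⟩
          refine ⟨h1.1, fun j => ?_⟩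
          induction j using Fin.cases with
          | zero => simpa using h1.2
          | succ j => simpa using hu.2 j
      · exact Or.inr h
    · right
      push Not at hgood
      set Xj : Fin k → Finset V := fun j => (C 0).filter
        (fun v => (C' v j).card * (4 * R) < (C j.succ).card) with hXj
      set Xi : ι → Finset V := fun i => (C 0).filter
        (fun v => (D' v i).card * (4 * R) < (D i).card) with hXi
      have hcover : C 0 ⊆ univ.biUnion Xj ∪ univ.biUnion Xi := by
        intro v hv
        rw [Finset.mem_union, Finset.mem_biUnion, Finset.mem_biUnion]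
        by_cases hj : ∀ j, (C j.succ).card ≤ (C' v j).card * (4 * R)
        · obtain ⟨i, hi⟩ := hgood v hv hj
          exact Or.inr ⟨i, Finset.mem_univ i, Finset.mem_filter.mpr ⟨hv, hi⟩⟩
        · push Not at hj
          obtain ⟨j, hj⟩ := hj
          exact Or.inl ⟨j, Finset.mem_univ j, Finset.mem_filter.mpr ⟨hv, hj⟩⟩
      have hpow : 1 ≤ (4 * R) ^ (k + 1) := Nat.one_le_pow _ _ hRp
      have hbase : s * (k + 1 + Fintype.card ι) ≤ s * (k + 1 + Fintype.card ι) * (4 * R) ^ (k + 1) := by
        calc s * (k + 1 + Fintype.card ι) = s * (k + 1 + Fintype.card ι) * 1 := by ring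
          _ ≤ _ := Nat.mul_le_mul_left _ hpow
      have hbase1 : s ≤ s * (k + 1 + Fintype.card ι) := by
        calc s = s * 1 := by ring
          _ ≤ _ := Nat.mul_le_mul_left _ (by omega)
      have hex : (∃ j, s ≤ (Xj j).card) ∨ ∃ i, s ≤ (Xi i).card := by
        by_contra hcon
        push Not at hcon
        have h1 := le_trans (Finset.card_le_card hcover) (Finset.card_union_le _ _)
        have h2 : (univ.biUnion Xj).card ≤ k * s := by
          refine le_trans Finset.card_biUnion_le ?_
          have : ∑ j, (Xj j).card ≤ ∑ _j : Fin k, s := Finset.sum_le_sum (fun j _ => (hcon.1 j).le)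
          rwa [Finset.sum_const, Finset.card_univ, Fintype.card_fin, smul_eq_mul] at this
        have h3 : (univ.biUnion Xi).card ≤ Fintype.card ι * s := by
          refine le_trans Finset.card_biUnion_le ?_
          have : ∑ i, (Xi i).card ≤ ∑ _i : ι, s := Finset.sum_le_sum (fun i _ => (hcon.2 i).le)
          rwa [Finset.sum_const, Finset.card_univ, smul_eq_mul] at this
        have h4 : s * (k + 1 + Fintype.card ι) ≤ k * s + Fintype.card ι * s :=
          le_trans hbase (le_trans (hC 0) (le_trans h1 (add_le_add h2 h3)))
        nlinarith
      -- conclusion for a bad set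
      have hconc : ∀ (X Y : Finset V) (E : V → Finset V), s ≤ X.card → s ≤ Y.card →
          (∀ v ∈ X, (E v).card * (4 * R) < Y.card) →
          ((∀ v, Y.filter (fun u => G.Adj v u) ⊆ E v) ∨
            (∀ v, Y.filter (fun u => ¬ G.Adj v u ∧ u ≠ v) ⊆ E v)) →
          ((∀ x ∈ X, (Y.filter (fun y => G.Adj x y)).card * (2 * R) ≤ Y.card) ∨
            (∀ x ∈ X, (Y.filter (fun y => ¬ G.Adj x y)).card * (2 * R) ≤ Y.card)) := by
        intro X Y E hX hY hE h
        rcases h with h | h
        · left
          intro x hx
          have h1 := hE x hx
          have h2 := Finset.card_le_card (h x)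
          nlinarith
        · right
          intro x hx
          have h1 := hE x hx
          have h2 := Finset.card_le_card (h x)
          have h5 : Y.filter (fun y => ¬ G.Adj x y) ⊆
              insert x (Y.filter (fun u => ¬ G.Adj x u ∧ u ≠ x)) := by
            intro y hy
            rw [Finset.mem_filter] at hy
            rw [Finset.mem_insert, Finset.mem_filter]
            by_cases hyx : y = x
            · left; exact hyx
            · right; exact ⟨hy.1, hy.2, hyx⟩
          have h3 := le_trans (Finset.card_le_card h5) (Finset.card_insert_le _ _)
          have h4 : 4 * R ≤ Y.card := le_trans hs hY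
          nlinarith
      rcases hex with ⟨j, hj⟩ | ⟨i, hi⟩
      · have hY : s ≤ (C j.succ).card := le_trans hbase1 (le_trans hbase (hC j.succ))
        refine ⟨Xj j, C j.succ, hj, hY, (Finset.filter_subset _ _).trans (hCS 0), hCS _, ?_⟩
        refine hconc _ _ (fun v => C' v j) hj hY ?_ ?_
        · intro v hv
          simp only [hXj, Finset.mem_filter] at hv
          exact hv.2
        · by_cases hH : H.Adj 0 j.succ
          · left
            intro v
            simp only [hC', if_pos hH]
            exact Finset.Subset.refl _
          · right
            intro v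
            simp only [hC', if_neg hH]
            exact Finset.Subset.refl _
      · have hY : s ≤ (D i).card := le_trans hbase1 (le_trans hbase (hD i))
        refine ⟨Xi i, D i, hi, hY, (Finset.filter_subset _ _).trans (hCS 0), hDS _, ?_⟩
        refine hconc _ _ (fun v => D' v i) hi hY ?_ ?_
        · intro v hv
          simp only [hXi, Finset.mem_filter] at hv
          exact hv.2
        · by_cases hH : P i 0
          · left
            intro v
            simp only [hD', if_pos hH]
            exact Finset.Subset.refl _
          · right
            intro v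
            simp only [hD', if_neg hH]
            intro u hu
            rw [Finset.mem_filter] at hu ⊢
            exact ⟨hu.1, hu.2.1⟩

end Pool.Agent.H61CI
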