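import Pool.Agent.H61CI.Main

/-!
# Induced copies all of whose cells have nearly the chromatic number of the graph
-/

set_option autoImplicit false
set_option linter.unusedSectionVars false

namespace Pool.Agent.H61CI

open Finset Pool.Agent.H974R3.RC

/-- the cell of `A`: the vertices `v` of `G` such that the `f i` adjacent to `v` are exactly the
`f i` with `i ∈ A` -/
def cell {V W : Type} (G : SimpleGraph V) (f : W → V) (A : Set W) : Set V :=
  {v | ∀ i, G.Adj (f i) v ↔ i ∈ A}

theorem toNat_le {V : Type} (G : SimpleGraph V) {N : ℕ} (h : G.Colorable N) :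
    G.chromaticNumber.toNat ≤ N := by
  have h1 : G.chromaticNumber ≤ N := h.chromaticNumber_le
  have := ENat.toNat_le_toNat h1 (ENat.natCast_ne_top N)
  simpa using this

theorem colorable_toNat {V : Type} [Finite V] (G : SimpleGraph V) :
    G.Colorable G.chromaticNumber.toNat := G.colorable_chromaticNumber_of_fintype

theorem log_mono_nat {a b : ℕ} (h : a ≤ b) : Real.log a ≤ Real.log b := by
  rcases Nat.eq_zero_or_pos a with rfl | ha
  · rw [Nat.cast_zero, Real.log_zero]
    exact Real.log_natCast_nonneg b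
  · exact Real.log_le_log (by exact_mod_cast ha) (by exact_mod_cast h)

/-- graphs with few vertices -/
theorem cells_of_card {V : Type} [Fintype V] [DecidableEq V] (G : SimpleGraph V)
    [DecidableRel G.Adj] (r : ℕ) (hr : 2 ≤ r) (hrank : (G.adjMatrix ℝ).rank ≤ r)
    (hcard : Fintype.card V ≤ 2 ^ r) (k : ℕ) (H : SimpleGraph (Fin k))
    (hbig : 40 * ((k : ℝ) + 1) * (Real.log r) ^ 2 < Real.log (G.chromaticNumber.toNat : ℝ)) :
    ∃ f : H ↪g G, ∀ A : Set (Fin k),
      Real.log (G.chromaticNumber.toNat : ℝ) - 40 * ((k : ℝ) + 1) * (Real.log r) ^ 2 ≤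
        Real.log ((G.induce (cell G f A)).chromaticNumber.toNat : ℝ) := by
  classical
  by_contra hcon
  push Not at hcon
  set L : ℝ := Real.log (G.chromaticNumber.toNat : ℝ) - 40 * ((k : ℝ) + 1) * (Real.log r) ^ 2
    with hL
  have hL0 : 0 < L := by rw [hL]; linarith
  have hexp : 1 < Real.exp L := Real.one_lt_exp_iff.2 hL0
  have hceil : 1 < ⌈Real.exp L⌉₊ := by
    rw [Nat.lt_ceil]; exact_mod_cast hexp
  set s0 : ℕ := ⌈Real.exp L⌉₊ - 1 with hs0
  have hs01 : 1 ≤ s0 := by omega
  have hs0lt : (s0 : ℝ) < Real.exp L := by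
    rw [← Nat.lt_ceil]; omega
  have hle : ∀ m : ℕ, Real.log (m : ℝ) < L → m ≤ s0 := by
    intro m hm
    rcases Nat.eq_zero_or_pos m with rfl | hm0
    · omega
    have hm1 : (0 : ℝ) < m := by exact_mod_cast hm0
    have h1 : (m : ℝ) < Real.exp L := by
      rw [← Real.exp_log hm1]
      exact Real.exp_lt_exp.2 hm
    rw [← Nat.lt_ceil] at h1
    omega
  obtain ⟨N, hN, hlog⟩ := mainD G r hr hrank hcard k s0 hs01 H (by
    intro f hf hadj
    let F : H ↪g G := ⟨⟨f, hf⟩, by
      intro i j
      by_cases hij : i = j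
      · subst hij
        exact ⟨fun h => absurd h (G.loopless.irrefl _), fun h => absurd h (H.loopless.irrefl _)⟩
      · exact hadj i j hij⟩
    obtain ⟨A, hA⟩ := hcon F
    have hm := hle _ hA
    obtain ⟨C⟩ := colorable_toNat (G.induce (cell G F A))
    refine ⟨A.toFinset, fun v => if h : v ∈ cell G F A then (C ⟨v, h⟩ : ℕ) else 0, ?_, ?_⟩
    · intro v hv
      beta_reduce
      split_ifs with h
      · exact lt_of_lt_of_le (C ⟨v, h⟩).isLt hm
      · omega
    · intro u hu v hv huv
      have hmem : ∀ w : V, w ∈ cel G f A.toFinset → w ∈ cell G F A := by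
        intro w hw i
        rw [cel, Finset.mem_filter] at hw
        rw [← Set.mem_toFinset]
        exact hw.2 i
      intro h
      simp only [dif_pos (hmem u hu), dif_pos (hmem v hv)] at h
      have h1 : C ⟨u, hmem u hu⟩ = C ⟨v, hmem v hv⟩ := Fin.ext h
      exact C.valid (v := ⟨u, hmem u hu⟩) (w := ⟨v, hmem v hv⟩) huv h1)
  have h1 : Real.log (G.chromaticNumber.toNat : ℝ) ≤ Real.log (N : ℝ) :=
    log_mono_nat (toNat_le G hN)
  have h2 : Real.log (s0 : ℝ) < L := by
    rw [Real.log_lt_iff_lt_exp (by exact_mod_cast hs01)]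
    exact hs0lt
  linarith

/-- all finite graphs -/
theorem cells {V : Type} [Fintype V] (G : SimpleGraph V) [DecidableEq V] [DecidableRel G.Adj]
    (hr : 1 < (G.adjMatrix ℝ).rank) (k : ℕ) (H : SimpleGraph (Fin k))
    (hbig : 40 * ((k : ℝ) + 1) * (Real.log ((G.adjMatrix ℝ).rank : ℝ)) ^ 2 <
      Real.log (G.chromaticNumber.toNat : ℝ)) :
    ∃ f : H ↪g G, ∀ A : Set (Fin k),
      Real.log (G.chromaticNumber.toNat : ℝ) -
          40 * ((k : ℝ) + 1) * (Real.log ((G.adjMatrix ℝ).rank : ℝ)) ^ 2 ≤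
        Real.log ((G.induce (cell G f A)).chromaticNumber.toNat : ℝ) := by
  classical
  set r := (G.adjMatrix ℝ).rank with hrdef
  let st : Setoid V :=
    { r := fun u v => ∀ x, G.Adj x u ↔ G.Adj x v
      iseqv := ⟨fun _ _ => Iff.rfl, fun h x => (h x).symm, fun h h' x => (h x).trans (h' x)⟩ }
  let rep : V → V := fun v => (Quotient.mk st v).out
  have hrep : ∀ v x, G.Adj x (rep v) ↔ G.Adj x v := by
    intro v x
    have h : st (rep v) v := Quotient.exact (Quotient.out_eq (Quotient.mk st v))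
    exact h x
  have hrep2 : ∀ u v, G.Adj (rep u) (rep v) ↔ G.Adj u v := by
    intro u v
    rw [hrep, G.adj_comm, hrep, G.adj_comm]
  have hidem : ∀ u v : V, (∀ x, G.Adj x u ↔ G.Adj x v) → rep u = rep v := by
    intro u v h
    have : Quotient.mk st u = Quotient.mk st v := Quotient.sound h
    show (Quotient.mk st u).out = (Quotient.mk st v).out
    rw [this]
  let S0 : Set V := Set.range rep
  let G' : SimpleGraph S0 := G.induce S0
  have hrank : (G'.adjMatrix ℝ).rank ≤ r := by
    have h1 : G'.adjMatrix ℝ = (G.adjMatrix ℝ).submatrix (Subtype.val : S0 → V) Subtype.val := by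
      ext a b
      simp only [SimpleGraph.adjMatrix_apply, Matrix.submatrix_apply]
      rfl
    rw [h1]
    exact Matrix.rank_submatrix_le _ _ _
  have hcard : Fintype.card S0 ≤ 2 ^ r := by
    refine le_trans (card_le_two_pow G' ?_) (Nat.pow_le_pow_right (by norm_num) hrank)
    rintro ⟨u, a, rfl⟩ ⟨v, b, rfl⟩ h
    apply Subtype.ext
    show rep a = rep b
    apply hidem
    intro x
    have h1 := h ⟨rep x, x, rfl⟩
    have h2 : G.Adj (rep x) (rep a) ↔ G.Adj (rep x) (rep b) := h1
    rwa [hrep2, hrep2] at h2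
  have hchi : G.chromaticNumber.toNat ≤ G'.chromaticNumber.toNat := by
    apply toNat_le
    obtain ⟨C⟩ := colorable_toNat G'
    refine ⟨SimpleGraph.Coloring.mk (fun v => C ⟨rep v, v, rfl⟩) ?_⟩
    intro u v huv
    exact C.valid (v := ⟨rep u, u, rfl⟩) (w := ⟨rep v, v, rfl⟩) ((hrep2 u v).2 huv)
  have hlog := log_mono_nat hchi
  obtain ⟨f, hf⟩ := cells_of_card G' r hr hrank hcard k H (lt_of_lt_of_le hbig hlog)
  refine ⟨f.trans (SimpleGraph.Embedding.induce S0), fun A => ?_⟩
  have h1 := hf A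
  have h2 : (G'.induce (cell G' f A)).chromaticNumber.toNat ≤
      (G.induce (cell G (f.trans (SimpleGraph.Embedding.induce S0)) A)).chromaticNumber.toNat := by
    apply toNat_le
    obtain ⟨C⟩ := colorable_toNat (G.induce (cell G (f.trans (SimpleGraph.Embedding.induce S0)) A))
    refine ⟨SimpleGraph.Coloring.mk (fun v => C ⟨v.1.1, fun i => v.2 i⟩) ?_⟩
    intro u v huv
    exact C.valid (v := ⟨u.1.1, fun i => u.2 i⟩) (w := ⟨v.1.1, fun i => v.2 i⟩) huv
  have h3 := log_mono_nat h2
  linarith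

end Pool.Agent.H61CI
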