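import Pool.Agent.H61CI.Emb

/-!
# The colouring bound when every induced copy of a graph has a cell with few colours
-/

set_option autoImplicit false
set_option linter.unusedSectionVars false

namespace Pool.Agent.H61CI

open Finset Pool.Agent.H974R3.RC

variable {V : Type} [Fintype V] [DecidableEq V] (G : SimpleGraph V) [DecidableRel G.Adj]

open Classical in
/-- a cell: the vertices whose neighbours among the `f j` are exactly those with `j ∈ A` -/
noncomputable def cel {k : ℕ} (f : Fin k → V) (A : Finset (Fin k)) : Finset V :=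
  univ.filter (fun v => ∀ j, G.Adj (f j) v ↔ j ∈ A)

lemma Col.sub {S T : Finset V} {N : ℕ} (h : Col G T N) (hST : S ⊆ T) : Col G S N := by
  obtain ⟨c, a, b⟩ := h
  exact ⟨c, fun v hv => a v (hST hv), fun u hu v hv => b u (hST hu) v (hST hv)⟩

/-- a large subset of half the rank, or with few colours -/
lemma findD (R k s0 : ℕ) (H : SimpleGraph (Fin k)) (hR : (G.adjMatrix ℝ).rank + 1 ≤ R)
    (hH : ∀ f : Fin k → V, Function.Injective f → (∀ i j, i ≠ j → (G.Adj (f i) (f j) ↔ H.Adj i j)) →
      ∃ A, Col G (cel G f A) s0)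
    (S : Finset V) (hS : 4 * R * ((k + 2 ^ k) * (4 * R) ^ k) ≤ S.card) :
    ∃ Z ⊆ S, S.card ≤ (8 * ((k + 2 ^ k) * (4 * R) ^ k)) * Z.card ∧
      (2 * rho G Z ≤ rho G S + 2 ∨ Col G Z s0) := by
  classical
  have hR1 : 1 ≤ R := by omega
  have hk : 0 < k + 2 ^ k := by positivity
  have hpow : 0 < (4 * R) ^ k := pow_pos (by omega) k
  set Q := (k + 2 ^ k) * (4 * R) ^ k with hQ
  have hQ0 : 0 < Q := Nat.mul_pos hk hpow
  set s := S.card / Q with hs
  have hs1 : 4 * R ≤ s := by
    rw [hs, Nat.le_div_iff_mul_le hQ0]; exact hS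
  have hs2 : s * Q ≤ S.card := Nat.div_mul_le_self _ _
  have hs3 : S.card < (s + 1) * Q := by
    have := Nat.lt_mul_div_succ S.card hQ0
    rw [mul_comm]; exact this
  have hbig : ∀ Z : Finset V, s / 4 ≤ Z.card → S.card ≤ (8 * Q) * Z.card := by
    intro Z hZ
    have h1 : s + 1 ≤ 8 * Z.card := by omega
    calc S.card ≤ (s + 1) * Q := hs3.le
      _ ≤ (8 * Z.card) * Q := Nat.mul_le_mul_right _ h1
      _ = _ := by ring
  have hcard : s * (k + Fintype.card (Finset (Fin k))) * (4 * R) ^ k ≤ S.card := by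
    rw [Fintype.card_finset, Fintype.card_fin]
    calc s * (k + 2 ^ k) * (4 * R) ^ k = s * Q := by rw [hQ]; ring
      _ ≤ _ := hs2
  rcases embedD G R s hR1 hs1 (ι := Finset (Fin k)) S k H (fun A j => j ∈ A) (fun _ => S)
    (fun _ => S) (fun _ => Finset.Subset.refl _) (fun _ => Finset.Subset.refl _)
    (fun _ => hcard) (fun _ => hcard) with ⟨f, hf, _, hadj, hcell⟩ | ⟨X, Y, hX, hY, hXS, hYS, hXY⟩
  · obtain ⟨A, hA⟩ := hH f hf hadj
    refine ⟨S ∩ cel G f A, Finset.inter_subset_left, hbig _ ?_,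
      Or.inr (Col.sub G hA Finset.inter_subset_right)⟩
    have h2 : s / 4 ≤ s := Nat.div_le_self _ _
    refine le_trans h2 (le_trans (hcell A) (Finset.card_le_card ?_))
    intro v hv
    have hv1 := (@Finset.mem_filter V (fun v => ∀ j, G.Adj (f j) v ↔ j ∈ A) (_) S v).1 hv
    rw [Finset.mem_inter]
    refine ⟨hv1.1, ?_⟩
    exact (@Finset.mem_filter V (fun v => ∀ j, G.Adj (f j) v ↔ j ∈ A) (_) univ v).2
      ⟨Finset.mem_univ v, hv1.2⟩
  have hW : Module.finrank ℝ (RW G) ≤ R := le_trans (finrank_RW G) hR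
  have hpure : ∃ Y' ⊆ Y, Y.card ≤ 2 * Y'.card ∧
      ((∀ x ∈ X, ∀ y ∈ Y', ¬ G.Adj x y) ∨ (∀ x ∈ X, ∀ y ∈ Y', G.Adj x y)) := by
    rcases hXY with h | h
    · obtain ⟨Y', h1, h2, h3⟩ := pure_of (RW G) R hR1 hW (fun x => (G.adjMatrix ℝ) x) X Y
        (fun x _ => row_mem G x) (by
          intro x hx
          have := h x hx
          refine le_trans (Nat.mul_le_mul_right _ (Finset.card_le_card ?_)) this
          intro y hy
          rw [Finset.mem_filter] at hy ⊢
          refine ⟨hy.1, ?_⟩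
          by_contra hn
          apply hy.2
          rw [SimpleGraph.adjMatrix_apply, if_neg hn])
      refine ⟨Y', h1, h2, Or.inl ?_⟩
      intro x hx y hy hadj
      have := h3 x hx y hy
      simp only [SimpleGraph.adjMatrix_apply, if_pos hadj] at this
      norm_num at this
    · obtain ⟨Y', h1, h2, h3⟩ := pure_of (RW G) R hR1 hW (fun x y => 1 - (G.adjMatrix ℝ) x y) X Y
        (fun x _ => co_row_mem G x) (by
          intro x hx
          have := h x hx
          refine le_trans (Nat.mul_le_mul_right _ (Finset.card_le_card ?_)) this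
          intro y hy
          rw [Finset.mem_filter] at hy ⊢
          refine ⟨hy.1, ?_⟩
          intro hn
          apply hy.2
          rw [SimpleGraph.adjMatrix_apply, if_pos hn]; norm_num)
      refine ⟨Y', h1, h2, Or.inr ?_⟩
      intro x hx y hy
      by_contra hadj
      have := h3 x hx y hy
      simp only [SimpleGraph.adjMatrix_apply, if_neg hadj] at this
      norm_num at this
  obtain ⟨Y', hY'Y, hY'c, hp⟩ := hpure
  obtain ⟨X1, hX1X, hX1c⟩ := Finset.exists_subset_card_eq (s := X) (n := s / 4) (by omega)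
  set Y1 := Y' \ X1 with hY1
  have hY1c : s / 4 ≤ Y1.card := by
    have h1 := Finset.le_card_sdiff X1 Y'
    rw [← hY1] at h1
    omega
  have hd : Disjoint X1 Y1 := Finset.disjoint_sdiff
  have hXS1 : X1 ⊆ S := hX1X.trans hXS
  have hYS1 : Y1 ⊆ S := Finset.sdiff_subset.trans (hY'Y.trans hYS)
  have hh := rho_halve G hd hXS1 hYS1 (by
    rcases hp with hp | hp
    · left; intro x hx y hy; exact hp x (hX1X hx) y (Finset.sdiff_subset hy)
    · right; intro x hx y hy; exact hp x (hX1X hx) y (Finset.sdiff_subset hy))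
  rcases le_total (rho G X1) (rho G Y1) with hle | hle
  · exact ⟨X1, hXS1, hbig X1 (by omega), Or.inl (by omega)⟩
  · exact ⟨Y1, hYS1, hbig Y1 hY1c, Or.inl (by omega)⟩

/-- peeling -/
lemma peelD (T q M : ℝ) (ρ : ℕ) (g : Finset V → Prop) (hT : 0 ≤ T) (hq : 1 ≤ q) (hM : 0 ≤ M)
    (hcol : ∀ Z : Finset V, g Z → ∃ N : ℕ, (N : ℝ) ≤ T ∧ Col G Z N)
    (hfind : ∀ S : Finset V, M ≤ S.card → rho G S ≤ ρ → ∃ Z ⊆ S, (S.card : ℝ) ≤ q * Z.card ∧ g Z) :
    ∀ (n : ℕ) (S : Finset V), S.card ≤ n → rho G S ≤ ρ →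
      ∃ N : ℕ, (N : ℝ) ≤ T * (q * Real.log S.card + 1) + M ∧ Col G S N := by
  intro n
  induction n with
  | zero =>
    intro S hS _
    refine ⟨S.card, ?_, col_triv G S⟩
    have h0 : S.card = 0 := by omega
    rw [h0]
    simp only [Nat.cast_zero, Real.log_zero, mul_zero, zero_add, mul_one]
    positivity
  | succ n ih =>
    intro S hS hρ
    have hlog : 0 ≤ Real.log S.card := Real.log_natCast_nonneg _
    by_cases hc : M ≤ S.card
    · by_cases h0 : S.card = 0
      · refine ⟨S.card, ?_, col_triv G S⟩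
        rw [h0]
        simp only [Nat.cast_zero, Real.log_zero, mul_zero, zero_add, mul_one]
        positivity
      obtain ⟨Z, hZS, hZc, hZρ⟩ := hfind S hc hρ
      have hSpos : (0 : ℝ) < S.card := by
        have : 0 < S.card := Nat.pos_of_ne_zero h0
        exact_mod_cast this
      have hZpos : (0 : ℝ) < Z.card := by
        by_contra hcon
        push Not at hcon
        have : q * (Z.card : ℝ) ≤ 0 := mul_nonpos_of_nonneg_of_nonpos (by linarith) hcon
        linarith
      have hZpos' : 0 < Z.card := by exact_mod_cast hZpos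
      obtain ⟨N1, hN1, hC1⟩ := hcol Z hZρ
      have hcard : (S \ Z).card + Z.card = S.card := Finset.card_sdiff_add_card_eq_card hZS
      obtain ⟨N2, hN2, hC2⟩ := ih (S \ Z) (by omega) (le_trans (rho_mono G Finset.sdiff_subset) hρ)
      by_cases hz : (S \ Z).card = 0
      · have hSZ : S = Z := by
          apply Finset.Subset.antisymm _ hZS
          rw [← Finset.sdiff_eq_empty_iff_subset]
          exact Finset.card_eq_zero.mp hz
        refine ⟨N1, ?_, by rw [hSZ]; exact hC1⟩
        have : T * 1 ≤ T * (q * Real.log S.card + 1) := by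
          apply mul_le_mul_of_nonneg_left _ hT
          have : 0 ≤ q * Real.log S.card := mul_nonneg (by linarith) hlog
          linarith
        linarith
      refine ⟨N1 + N2, ?_, ?_⟩
      · have hpos : (0 : ℝ) < (S \ Z).card := by
          have : 0 < (S \ Z).card := Nat.pos_of_ne_zero hz
          exact_mod_cast this
        have h1 : ((S \ Z).card : ℝ) ≤ S.card * (1 - 1 / q) := by
          have h2 : ((S \ Z).card : ℝ) + Z.card = S.card := by exact_mod_cast hcard
          have h3 : (S.card : ℝ) / q ≤ Z.card := by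
            rw [div_le_iff₀ (by linarith)]; linarith
          have h4 : (S.card : ℝ) * (1 - 1 / q) = S.card - S.card / q := by ring
          rw [h4]; linarith
        have h5 : 0 < 1 - 1 / q := by
          by_contra hcon
          push Not at hcon
          have : (S.card : ℝ) * (1 - 1 / q) ≤ 0 := mul_nonpos_of_nonneg_of_nonpos hSpos.le hcon
          linarith
        have h6 : Real.log (S \ Z).card ≤ Real.log S.card - 1 / q := by
          calc Real.log (S \ Z).card ≤ Real.log (S.card * (1 - 1 / q)) := Real.log_le_log hpos h1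
            _ = Real.log S.card + Real.log (1 - 1 / q) := Real.log_mul hSpos.ne' h5.ne'
            _ ≤ Real.log S.card + ((1 - 1 / q) - 1) := by
              have := Real.log_le_sub_one_of_pos h5
              linarith
            _ = _ := by ring
        have h7 : q * Real.log (S \ Z).card ≤ q * Real.log S.card - 1 := by
          have := mul_le_mul_of_nonneg_left h6 (by linarith : (0 : ℝ) ≤ q)
          have e : q * (Real.log S.card - 1 / q) = q * Real.log S.card - 1 := by
            field_simp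
          linarith
        have h8 : T * (q * Real.log (S \ Z).card + 1) ≤ T * (q * Real.log S.card) := by
          apply mul_le_mul_of_nonneg_left _ hT
          linarith
        push_cast
        nlinarith
      · have := Col.union G hC1 hC2
        rwa [Finset.union_sdiff_of_subset hZS] at this
    · push Not at hc
      refine ⟨S.card, ?_, col_triv G S⟩
      have : 0 ≤ T * (q * Real.log S.card + 1) := by positivity
      linarith

/-- level induction -/
lemma levelD (q M B c : ℝ) (s0 : ℕ) (hc : 1 ≤ c) (hs0 : (s0 : ℝ) ≤ c) (hq : 1 ≤ q) (hM : 0 ≤ M)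
    (hfind : ∀ S : Finset V, M ≤ S.card → ∃ Z ⊆ S, (S.card : ℝ) ≤ q * Z.card ∧
      (2 * rho G Z ≤ rho G S + 2 ∨ Col G Z s0))
    (hB : q * Real.log (Fintype.card V) + 1 + M ≤ B) :
    ∀ (j : ℕ) (S : Finset V), rho G S ≤ 2 ^ j + 2 →
      ∃ N : ℕ, (N : ℝ) ≤ 3 * c * B ^ j ∧ Col G S N := by
  have hlogV : 0 ≤ Real.log (Fintype.card V) := Real.log_natCast_nonneg _
  have hB1 : 1 ≤ B := by
    have : 0 ≤ q * Real.log (Fintype.card V) := mul_nonneg (by linarith) hlogV
    linarith
  intro j
  induction j with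
  | zero =>
    intro S hS
    refine ⟨3, ?_, col_base G S (by simpa using hS)⟩
    rw [pow_zero]; push_cast; linarith
  | succ j ih =>
    intro S hS
    have hBj := one_le_pow₀ hB1 (n := j)
    have hT1 : c ≤ 3 * c * B ^ j := by nlinarith
    have hT : (1 : ℝ) ≤ 3 * c * B ^ j := le_trans hc hT1
    obtain ⟨N, hN, hC⟩ := peelD G (3 * c * B ^ j) q M (2 ^ (j + 1) + 2)
      (fun Z => rho G Z ≤ 2 ^ j + 2 ∨ Col G Z s0) (by linarith) hq hM
      (fun Z hZ => by
        rcases hZ with h | h
        · exact ih Z h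
        · exact ⟨s0, le_trans hs0 hT1, h⟩) (by
        intro S hMS hρ
        obtain ⟨Z, h1, h2, h3⟩ := hfind S hMS
        refine ⟨Z, h1, h2, ?_⟩
        rcases h3 with h3 | h3
        · left
          rw [pow_succ] at hρ
          omega
        · exact Or.inr h3) S.card S le_rfl hS
    refine ⟨N, ?_, hC⟩
    have hlog : Real.log S.card ≤ Real.log (Fintype.card V) := by
      by_cases h0 : S.card = 0
      · rw [h0]; simpa using hlogV
      · apply Real.log_le_log
        · have : 0 < S.card := Nat.pos_of_ne_zero h0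
          exact_mod_cast this
        · exact_mod_cast Finset.card_le_univ S
    have h1 : q * Real.log S.card + 1 ≤ q * Real.log (Fintype.card V) + 1 := by
      have := mul_le_mul_of_nonneg_left hlog (by linarith : (0 : ℝ) ≤ q)
      linarith
    calc (N : ℝ) ≤ 3 * c * B ^ j * (q * Real.log S.card + 1) + M := hN
      _ ≤ 3 * c * B ^ j * (q * Real.log (Fintype.card V) + 1) + 3 * c * B ^ j * M := by
        have h2 := mul_le_mul_of_nonneg_left h1 (by linarith : (0 : ℝ) ≤ 3 * c * B ^ j)
        have h3 := mul_le_mul_of_nonneg_right hT hM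
        linarith
      _ = 3 * c * B ^ j * (q * Real.log (Fintype.card V) + 1 + M) := by ring
      _ ≤ 3 * c * B ^ j * B := mul_le_mul_of_nonneg_left hB (by linarith)
      _ = 3 * c * B ^ (j + 1) := by rw [pow_succ]; ring

/-- the bound on the chromatic number -/
lemma mainD (r : ℕ) (hr : 2 ≤ r) (hrank : (G.adjMatrix ℝ).rank ≤ r)
    (hcard : Fintype.card V ≤ 2 ^ r) (k s0 : ℕ) (hs0 : 1 ≤ s0) (H : SimpleGraph (Fin k))
    (hH : ∀ f : Fin k → V, Function.Injective f → (∀ i j, i ≠ j → (G.Adj (f i) (f j) ↔ H.Adj i j)) →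
      ∃ A, Col G (cel G f A) s0) :
    ∃ N : ℕ, G.Colorable N ∧
      Real.log N ≤ Real.log s0 + 40 * ((k : ℝ) + 1) * (Real.log r) ^ 2 := by
  classical
  set Q : ℕ := (k + 2 ^ k) * (4 * (r + 1)) ^ k with hQ
  have hQ1 : 1 ≤ Q := Nat.mul_pos (by positivity) (pow_pos (by omega) k)
  have hQ1r : (1 : ℝ) ≤ Q := by exact_mod_cast hQ1
  set M : ℕ := 4 * (r + 1) * Q with hM
  have hfind : ∀ S : Finset V, (M : ℝ) ≤ S.card → ∃ Z ⊆ S, (S.card : ℝ) ≤ ((8 * Q : ℕ) : ℝ) * Z.card ∧
      (2 * rho G Z ≤ rho G S + 2 ∨ Col G Z s0) := by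
    intro S hS
    obtain ⟨Z, h1, h2, h3⟩ := findD G (r + 1) k s0 H (by omega) hH S (by
      have : M ≤ S.card := by exact_mod_cast hS
      exact this)
    exact ⟨Z, h1, by exact_mod_cast h2, h3⟩
  set B : ℝ := (r : ℝ) ^ (12 * (k + 1)) with hBdef
  have hr2 : (2 : ℝ) ≤ r := by exact_mod_cast hr
  have hlogV : Real.log (Fintype.card V) ≤ r := by
    have h1 := hcard
    by_cases h0 : Fintype.card V = 0
    · rw [h0]; simp
    · have h2 : Real.log (Fintype.card V) ≤ Real.log ((2 : ℝ) ^ r) := by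
        apply Real.log_le_log
        · have : 0 < Fintype.card V := Nat.pos_of_ne_zero h0
          exact_mod_cast this
        · exact_mod_cast h1
      rw [Real.log_pow] at h2
      have h3 := Real.log_two_lt_d9
      have h4 : (r : ℝ) * Real.log 2 ≤ r * 1 := by
        apply mul_le_mul_of_nonneg_left _ (by linarith)
        linarith
      linarith
  have h4R : (4 * ((r : ℝ) + 1)) ≤ (r : ℝ) ^ 4 := by
    have h1 : (r : ℝ) ^ 3 ≥ 8 := by
      have := pow_le_pow_left₀ (by norm_num : (0 : ℝ) ≤ 2) hr2 3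
      norm_num at this
      linarith
    have h2 : (r : ℝ) ^ 4 = r * r ^ 3 := by ring
    rw [h2]
    nlinarith
  have hB : ((8 * Q : ℕ) : ℝ) * Real.log (Fintype.card V) + 1 + M ≤ B := by
    have h1 : ((8 * Q : ℕ) : ℝ) * Real.log (Fintype.card V) ≤ ((8 * Q : ℕ) : ℝ) * r :=
      mul_le_mul_of_nonneg_left hlogV (by positivity)
    have h2 : ((8 * Q : ℕ) : ℝ) * r + 1 + M ≤ 8 * (4 * ((r : ℝ) + 1)) * Q := by
      rw [hM]; push_cast
      nlinarith
    have h3 : 8 * (4 * ((r : ℝ) + 1)) * Q ≤
        (r : ℝ) ^ 3 * (r : ℝ) ^ 4 * ((r : ℝ) ^ (k + 1) * ((r : ℝ) ^ 4) ^ k) := by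
      have e1 : (8 : ℝ) ≤ (r : ℝ) ^ 3 := by
        have := pow_le_pow_left₀ (by norm_num : (0 : ℝ) ≤ 2) hr2 3
        norm_num at this
        linarith
      have e2 : ((k : ℝ) + 2 ^ k) ≤ (r : ℝ) ^ (k + 1) := by
        have h5 : (k : ℝ) ≤ (2 : ℝ) ^ k := by exact_mod_cast (Nat.lt_two_pow_self (n := k)).le
        have h6 : ((k : ℝ) + 2 ^ k) ≤ 2 ^ (k + 1) := by rw [pow_succ]; linarith
        exact le_trans h6 (pow_le_pow_left₀ (by norm_num) hr2 (k + 1))
      have e3 : (4 * ((r : ℝ) + 1)) ^ k ≤ ((r : ℝ) ^ 4) ^ k := pow_le_pow_left₀ (by positivity) h4R k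
      rw [hQ]; push_cast
      gcongr
    have h4 : (r : ℝ) ^ 3 * (r : ℝ) ^ 4 * ((r : ℝ) ^ (k + 1) * ((r : ℝ) ^ 4) ^ k) =
        (r : ℝ) ^ (5 * k + 8) := by
      rw [← pow_mul, ← pow_add, ← pow_add, ← pow_add]
      congr 1; ring
    have h5 : (r : ℝ) ^ (5 * k + 8) ≤ B := by
      rw [hBdef]
      apply pow_le_pow_right₀ (by linarith)
      omega
    linarith
  have hs0r : (1 : ℝ) ≤ s0 := by exact_mod_cast hs0
  obtain ⟨N, hN, hC⟩ := levelD G ((8 * Q : ℕ) : ℝ) M B s0 s0 hs0r le_rfl
    (by push_cast; linarith) (by positivity) hfind hB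
    (Nat.clog 2 r) univ (by
      rw [rho_univ]
      have hcl : r ≤ 2 ^ Nat.clog 2 r := Nat.le_pow_clog (by norm_num) r
      omega)
  refine ⟨N, ?_, ?_⟩
  · obtain ⟨c, hc, hc2⟩ := hC
    refine ⟨SimpleGraph.Coloring.mk (fun v => (⟨c v, hc v (Finset.mem_univ v)⟩ : Fin N)) ?_⟩
    intro u v huv h
    exact hc2 u (Finset.mem_univ u) v (Finset.mem_univ v) huv (by simpa using congrArg Fin.val h)
  · by_cases hN0 : N = 0
    · rw [hN0, Nat.cast_zero, Real.log_zero]
      have : 0 ≤ Real.log (s0 : ℝ) := Real.log_natCast_nonneg _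
      positivity
    have hN0r : (0 : ℝ) < N := by exact_mod_cast Nat.pos_of_ne_zero hN0
    have hlr : Real.log 2 ≤ Real.log r := Real.log_le_log (by norm_num) hr2
    have hl2 := Real.log_two_gt_d9
    have hBpos : 0 < B := by rw [hBdef]; positivity
    have hk0 : (0 : ℝ) ≤ k := by positivity
    have h1 : Real.log N ≤ Real.log 3 + Real.log s0 +
        (Nat.clog 2 r) * (12 * ((k : ℝ) + 1) * Real.log r) := by
      calc Real.log N ≤ Real.log (3 * s0 * B ^ (Nat.clog 2 r)) := Real.log_le_log hN0r hN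
        _ = Real.log 3 + Real.log s0 + (Nat.clog 2 r) * Real.log B := by
          rw [Real.log_mul (by positivity) (pow_pos hBpos _).ne', Real.log_pow,
            Real.log_mul (by norm_num) (by positivity)]
        _ = _ := by rw [hBdef, Real.log_pow]; push_cast; ring
    have h2 : ((Nat.clog 2 r : ℕ) : ℝ) ≤ 3 * Real.log r := by
      have h3 : 2 ^ (Nat.clog 2 r - 1) < r := Nat.pow_pred_clog_lt_self (by norm_num) hr
      have h4 : 0 < Nat.clog 2 r := Nat.clog_pos (by norm_num) hr
      have h5 : (((Nat.clog 2 r - 1 : ℕ)) : ℝ) * Real.log 2 ≤ Real.log r := by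
        rw [← Real.log_pow]
        apply Real.log_le_log (by positivity)
        exact_mod_cast h3.le
      rw [Nat.cast_sub (by omega)] at h5
      push_cast at h5
      nlinarith
    have h6 : Real.log 3 ≤ 4 * ((k : ℝ) + 1) * (Real.log r) ^ 2 := by
      have h7 : Real.log 3 ≤ 1.12 := by
        have : Real.log 3 ≤ Real.log (2 ^ (8/5 : ℝ)) := by
          apply Real.log_le_log (by norm_num)
          have h8 : (3 : ℝ) ^ (5 : ℕ) ≤ (2 ^ (8/5 : ℝ)) ^ (5 : ℕ) := by
            rw [← Real.rpow_natCast (2 ^ (8/5 : ℝ)) 5, ← Real.rpow_mul (by norm_num)]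
            norm_num
          exact le_of_pow_le_pow_left₀ (by norm_num) (by positivity) h8
        rw [Real.log_rpow (by norm_num)] at this
        have := Real.log_two_lt_d9
        linarith
      have h9 : (Real.log r) ^ 2 ≥ 0.48 := by nlinarith
      nlinarith
    have h10 : ((Nat.clog 2 r : ℕ) : ℝ) * (12 * ((k : ℝ) + 1) * Real.log r) ≤
        3 * Real.log r * (12 * ((k : ℝ) + 1) * Real.log r) := by
      apply mul_le_mul_of_nonneg_right h2
      have : 0 ≤ Real.log r := by linarith
      positivity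
    calc Real.log N ≤ Real.log 3 + Real.log s0 +
          (Nat.clog 2 r) * (12 * ((k : ℝ) + 1) * Real.log r) := h1
      _ ≤ Real.log s0 + (4 * ((k : ℝ) + 1) * (Real.log r) ^ 2 +
          3 * Real.log r * (12 * ((k : ℝ) + 1) * Real.log r)) := by linarith
      _ = _ := by ring

end Pool.Agent.H61CI
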